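import Pool.Agent.H25.Bond.Gr

set_option autoImplicit false

/-! Domination: five vertices do not dominate the graph, six vertices do not dominate it
after the deletion of seven edges. -/

namespace Pool.Agent.H25.BondD

open Pool.Agent.H25.BondG

/-- masks of the closed neighbourhoods -/
def nL : List Nat := [2203, 311, 622, 1229, 35091, 4902, 9804, 19593, 37170, 12900, 25800, 51345, 9024288, 1275456, 2550912, 5036304, 143732736, 20078592, 40157184, 80252928, 152248320, 52838400, 105676800, 210309120, 187826176, 123994112, 247988224, 227606528]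

/-- mask of the closed neighbourhood of `u` -/
def nb (u : Fin 28) : Nat := nL.getD u.1 0

/-- the vertices, the masks of the vertices and the masks of the closed neighbourhoods of the
closed neighbours -/
def tbl : List (Fin 28 × Nat × List Nat) := [
  (20, 1048576, [1275456, 143732736, 20078592, 152248320, 187826176, 227606528]),
  (6, 64, [622, 1229, 9804, 12900, 25800, 1275456]),
  (26, 67108864, [80252928, 105676800, 210309120, 123994112, 247988224, 227606528]),
  (18, 262144, [2550912, 5036304, 40157184, 52838400, 105676800, 123994112]),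
  (2, 4, [311, 622, 1229, 4902, 9804, 12900]),
  (3, 8, [2203, 622, 1229, 9804, 19593, 25800]),
  (17, 131072, [1275456, 2550912, 20078592, 152248320, 52838400, 187826176]),
  (16, 65536, [9024288, 1275456, 143732736, 152248320, 210309120, 227606528]),
  (21, 2097152, [2550912, 20078592, 40157184, 52838400, 187826176, 123994112]),
  (23, 8388608, [9024288, 143732736, 80252928, 210309120, 247988224, 227606528]),
  (10, 1024, [1229, 9804, 19593, 25800, 1275456, 2550912]),
  (0, 1, [2203, 311, 1229, 35091, 19593, 51345]),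
  (25, 33554432, [40157184, 52838400, 105676800, 187826176, 123994112, 247988224]),
  (4, 16, [2203, 311, 35091, 37170, 51345, 5036304]),
  (19, 524288, [9024288, 5036304, 80252928, 105676800, 210309120, 247988224]),
  (7, 128, [2203, 1229, 19593, 25800, 51345, 2550912]),
  (1, 2, [2203, 311, 622, 35091, 4902, 37170]),
  (11, 2048, [2203, 35091, 19593, 51345, 2550912, 5036304]),
  (22, 4194304, [5036304, 40157184, 80252928, 105676800, 123994112, 247988224]),
  (24, 16777216, [20078592, 152248320, 52838400, 187826176, 123994112, 227606528]),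
  (9, 512, [622, 4902, 9804, 12900, 9024288, 1275456]),
  (5, 32, [311, 622, 4902, 37170, 12900, 9024288]),
  (8, 256, [311, 35091, 4902, 37170, 9024288, 5036304]),
  (27, 134217728, [143732736, 152248320, 210309120, 187826176, 247988224, 227606528]),
  (13, 8192, [9804, 12900, 25800, 9024288, 1275456, 2550912, 143732736, 20078592, 152248320]),
  (15, 32768, [35091, 37170, 51345, 9024288, 2550912, 5036304, 40157184, 80252928, 105676800]),
  (14, 16384, [19593, 25800, 51345, 1275456, 2550912, 5036304, 20078592, 40157184, 52838400]),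
  (12, 4096, [4902, 37170, 12900, 9024288, 1275456, 5036304, 143732736, 80252928, 210309120])]

/-- the branching search -/
def srch : Nat → Nat → Bool
  | 0, cov => match tbl.find? (fun p => Nat.beq (Nat.land cov p.2.1) 0) with
    | none => false
    | some _ => true
  | k + 1, cov => match tbl.find? (fun p => Nat.beq (Nat.land cov p.2.1) 0) with
    | none => false
    | some p => p.2.2.all (fun m => srch k (Nat.lor cov m))

theorem tbl_spec : ∀ p ∈ tbl, ∀ u : Fin 28,
    (Nat.land (nb u) p.2.1 = 0 ∨ nb u ∈ p.2.2) := by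
  decide +kernel

theorem adj_spec : ∀ p ∈ tbl, ∀ u : Fin 28, Nat.land (nb u) p.2.1 = 0 →
    u ≠ p.1 ∧ ¬ gr.Adj u p.1 := by
  decide +kernel

theorem srch5 : srch 5 0 = true := by
  decide +kernel

theorem land_lor_zero {a b c : ℕ} (h : Nat.land (Nat.lor a b) c = 0) :
    Nat.land a c = 0 ∧ Nat.land b c = 0 := by
  have h1 : (a ||| b) &&& c = 0 := h
  rw [Nat.and_or_distrib_right] at h1
  exact Nat.or_eq_zero_iff.1 h1

theorem srch_spec : ∀ (k cov : ℕ) (D : Finset (Fin 28)), D.card ≤ k → srch k cov = true →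
    ∃ p ∈ tbl, Nat.land cov p.2.1 = 0 ∧ ∀ u ∈ D, Nat.land (nb u) p.2.1 = 0 := by
  intro k
  induction k with
  | zero =>
    intro cov D hD h
    unfold srch at h
    have hD' : D = ∅ := Finset.card_eq_zero.1 (Nat.le_zero.1 hD)
    cases hf : tbl.find? (fun p => Nat.beq (Nat.land cov p.2.1) 0) with
    | none => rw [hf] at h; exact absurd h Bool.false_ne_true
    | some p =>
      have h1 := List.find?_some hf
      refine ⟨p, List.mem_of_find?_eq_some hf, Nat.eq_of_beq_eq_true h1, ?_⟩
      intro u hu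
      rw [hD'] at hu
      exact absurd hu (Finset.notMem_empty u)
  | succ k ih =>
    intro cov D hD h
    unfold srch at h
    cases hf : tbl.find? (fun p => Nat.beq (Nat.land cov p.2.1) 0) with
    | none => rw [hf] at h; exact absurd h Bool.false_ne_true
    | some p =>
      rw [hf] at h
      have h1 := List.find?_some hf
      have hm := List.mem_of_find?_eq_some hf
      by_cases hall : ∀ u ∈ D, Nat.land (nb u) p.2.1 = 0
      · exact ⟨p, hm, Nat.eq_of_beq_eq_true h1, hall⟩
      · push Not at hall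
        obtain ⟨u, hu, hu2⟩ := hall
        have hmem : nb u ∈ p.2.2 := (tbl_spec p hm u).resolve_left hu2
        have h2 := List.all_eq_true.1 h _ hmem
        obtain ⟨q, hq, hq1, hq2⟩ := ih (Nat.lor cov (nb u)) (D.erase u) (by
          rw [Finset.card_erase_of_mem hu]; omega) h2
        obtain ⟨h3, h4⟩ := land_lor_zero hq1
        refine ⟨q, hq, h3, fun w hw => ?_⟩
        by_cases hwu : w = u
        · rw [hwu]; exact h4
        · exact hq2 w (Finset.mem_erase.2 ⟨hwu, hw⟩)

theorem dom5 : Dom5 := by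
  intro D hD
  obtain ⟨p, hp, -, h⟩ := srch_spec 5 0 D hD srch5
  refine ⟨p.1, ?_, ?_⟩
  · intro hm
    exact (adj_spec p hp p.1 (h p.1 hm)).1 rfl
  · intro u hu
    exact (adj_spec p hp u (h u hu)).2

theorem f1 : ∀ u : Fin 28, gr.Adj u 0 → s(u, 0) ∈ E0 := by decide +kernel

theorem f1' : ∀ u : Fin 28, gr.Adj 0 u → s(0, u) ∈ E0 := by decide +kernel

theorem f2 : ∀ u : Fin 28, gr.Adj u 4 → s(u, 4) ∈ E0 ∨ u = 1 ∨ u = 11 := by decide +kernel

theorem f2' : ∀ u : Fin 28, gr.Adj 4 u → s(4, u) ∈ E0 ∨ u = 1 ∨ u = 11 := by decide +kernel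

theorem f3 : gr.Adj 0 1 ∧ gr.Adj 0 11 ∧ gr.Adj 0 4 ∧ gr.Adj 1 0 ∧ gr.Adj 11 0 := by
  decide +kernel

theorem dom7 : Dom7 := by
  intro D hD
  by_contra hcon
  push Not at hcon
  have hc : ∀ v, v ∉ D → ∃ u ∈ D, gr.Adj u v ∧ s(u, v) ∉ E0 := by
    intro v hv
    obtain ⟨u, hu, h⟩ := hcon v hv
    rw [SimpleGraph.deleteEdges_adj] at h
    exact ⟨u, hu, h.1, fun h2 => h.2 (Finset.mem_coe.2 h2)⟩
  have h0 : (0 : Fin 28) ∈ D := by
    by_contra h
    obtain ⟨u, -, h1, h2⟩ := hc 0 h
    exact h2 (f1 u h1)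
  obtain ⟨f31, f32, f33, f34, f35⟩ := f3
  by_cases h4 : (4 : Fin 28) ∈ D
  · obtain ⟨v, hv, hv2⟩ := dom5 (D.erase 4) (by rw [Finset.card_erase_of_mem h4]; omega)
    have h04 : (0 : Fin 28) ∈ D.erase 4 := Finset.mem_erase.2 ⟨by decide, h0⟩
    by_cases hv4 : v = 4
    · rw [hv4] at hv2
      exact hv2 0 h04 f33
    · have hvD : v ∉ D := fun h => hv (Finset.mem_erase.2 ⟨hv4, h⟩)
      obtain ⟨u, hu, h5, h6⟩ := hc v hvD
      by_cases hu4 : u = 4
      · rw [hu4] at h5 h6
        rcases f2' v h5 with h7 | h7 | h7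
        · exact h6 h7
        · rw [h7] at hv2; exact hv2 0 h04 f31
        · rw [h7] at hv2; exact hv2 0 h04 f32
      · exact hv2 u (Finset.mem_erase.2 ⟨hu4, hu⟩) h5
  · obtain ⟨u, hu, h5, h6⟩ := hc 4 h4
    obtain ⟨v, hv, hv2⟩ := dom5 (D.erase 0) (by rw [Finset.card_erase_of_mem h0]; omega)
    have hu0 : u ∈ D.erase 0 ∧ gr.Adj u 0 := by
      rcases f2 u h5 with h7 | h7 | h7
      · exact absurd h7 h6
      · rw [h7]
        rw [h7] at hu
        exact ⟨Finset.mem_erase.2 ⟨by decide, hu⟩, f34⟩
      · rw [h7]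
        rw [h7] at hu
        exact ⟨Finset.mem_erase.2 ⟨by decide, hu⟩, f35⟩
    by_cases hv0 : v = 0
    · rw [hv0] at hv2
      exact hv2 u hu0.1 hu0.2
    · have hvD : v ∉ D := fun h => hv (Finset.mem_erase.2 ⟨hv0, h⟩)
      obtain ⟨w, hw, h8, h9⟩ := hc v hvD
      by_cases hw0 : w = 0
      · rw [hw0] at h8 h9
        exact h9 (f1' v h8)
      · exact hv2 w (Finset.mem_erase.2 ⟨hw0, hw⟩) h8

end Pool.Agent.H25.BondD
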