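import Pool.Agent.H25.Bond.Top
import Pool.Agent.H25.Bond.Gr

set_option autoImplicit false
set_option maxRecDepth 100000

namespace Pool.Agent.H25.Bond

open Pool.Agent.H25.BondG

/-- number of ones among the lowest `n` bits -/
def pop : ℕ → ℕ → ℕ
  | 0, _ => 0
  | n + 1, m => match Nat.testBit m n with
    | true => Nat.succ (pop n m)
    | false => pop n m

theorem pop_eq (n m : ℕ) :
    pop n m = ((Finset.range n).filter (fun i => m.testBit i = true)).card := by
  induction n with
  | zero => rfl
  | succ n ih =>
    unfold pop
    rw [Finset.range_add_one, Finset.filter_insert]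
    split
    · rename_i h
      rw [if_pos h, Finset.card_insert_of_notMem (by simp), ih]
    · rename_i h
      rw [if_neg (by simp [h]), ih]

/-- the mask of the edges between `u` and the vertices below `n` in `D` -/
def mask (u D : ℕ) : ℕ → ℕ
  | 0 => 0
  | n + 1 => match Nat.testBit D n with
    | true => Nat.lor (Nat.land (incL.getD u 0) (incL.getD n 0)) (mask u D n)
    | false => mask u D n

theorem mask_spec {u D n i : ℕ} (h : (mask u D n).testBit i = true) :
    ∃ w < n, D.testBit w = true ∧ (incL.getD u 0).testBit i = true ∧
      (incL.getD w 0).testBit i = true := by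
  induction n with
  | zero => simp [mask] at h
  | succ n ih =>
    unfold mask at h
    split at h
    · rename_i hb
      rw [testBit_lor, testBit_land, Bool.or_eq_true, Bool.and_eq_true] at h
      rcases h with h | h
      · exact ⟨n, Nat.lt_succ_self n, hb, h.1, h.2⟩
      · obtain ⟨w, hw, h1⟩ := ih h
        exact ⟨w, hw.trans (Nat.lt_succ_self n), h1⟩
    · obtain ⟨w, hw, h1⟩ := ih h
      exact ⟨w, hw.trans (Nat.lt_succ_self n), h1⟩

def subQ (m : ℕ) : List ℕ → Bool
  | [] => false
  | q :: qs => match Nat.beq (Nat.land q m) q with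
    | true => true
    | false => subQ m qs

theorem subQ_spec {m : ℕ} {qs : List ℕ} (h : subQ m qs = true) :
    ∃ q ∈ qs, ∀ i, q.testBit i = true → m.testBit i = true := by
  induction qs with
  | nil => exact absurd h (by simp [subQ])
  | cons q qs ih =>
    unfold subQ at h
    split at h
    · rename_i hb
      refine ⟨q, List.mem_cons_self, fun i hi => ?_⟩
      have h1 : Nat.land q m = q := Nat.eq_of_beq_eq_true hb
      rw [← h1, testBit_land, Bool.and_eq_true] at hi
      exact hi.2
    · obtain ⟨q', hq', h1⟩ := ih h
      exact ⟨q', List.mem_cons_of_mem _ hq', h1⟩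

def validU (d : DD) (u : ℕ) : Bool :=
  match Nat.testBit d.D u with
  | true => true
  | false => match Nat.beq (Nat.land (mask u d.D 28) d.s1) 0 with
    | false => true
    | true => subQ (mask u d.D 28) d.qs

def validN (d : DD) : ℕ → Bool
  | 0 => true
  | n + 1 => match validU d n with
    | true => validN d n
    | false => false

theorem validN_spec {d : DD} {n : ℕ} (h : validN d n = true) : ∀ u < n, validU d u = true := by
  induction n with
  | zero => intro u hu; omega
  | succ n ih =>
    unfold validN at h
    split at h
    · rename_i hb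
      intro u hu
      rcases Nat.lt_succ_iff_lt_or_eq.mp hu with h1 | h1
      · exact ih h u h1
      · rw [h1]; exact hb
    · exact absurd h (by simp)

def valid (d : DD) : Bool := match Nat.beq (pop 28 d.D) 6 with
  | true => validN d 28
  | false => false

theorem tab_valid : tab.all valid = true := by decide +kernel

/-- the lower end and the upper end of the edge number `e` -/
def fst_ (e : ℕ) : ℕ → ℕ
  | 0 => 0
  | n + 1 => match Nat.testBit (incL.getD (28 - (n + 1)) 0) e with
    | true => 28 - (n + 1)
    | false => fst_ e n

def lst_ (e : ℕ) : ℕ → ℕ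
  | 0 => 0
  | n + 1 => match Nat.testBit (incL.getD n 0) e with
    | true => n
    | false => lst_ e n

theorem ends_lt : ∀ e < 76, fst_ e 28 < lst_ e 28 ∧ lst_ e 28 < 28 := by decide +kernel

theorem ends_inc : ∀ e < 76, ∀ u < 28, (incL.getD u 0).testBit e = true →
    u = fst_ e 28 ∨ u = lst_ e 28 := by decide +kernel

theorem ends_inc' : ∀ e < 76, (incL.getD (fst_ e 28) 0).testBit e = true ∧
    (incL.getD (lst_ e 28) 0).testBit e = true := by decide +kernel

/-- two distinct vertices have at most one common edge -/
theorem ends_uniq : ∀ e < 76, ∀ f < 76, fst_ e 28 = fst_ f 28 → lst_ e 28 = lst_ f 28 → e = f := by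
  decide +kernel

theorem inc_lt : ∀ u < 28, incL.getD u 0 < 2 ^ 76 := by decide +kernel

/-- the edge with number `e` -/
def edge (e : ℕ) : Sym2 (Fin 28) := s(Fin.ofNat 28 (fst_ e 28), Fin.ofNat 28 (lst_ e 28))

theorem edge_inj {e f : ℕ} (he : e < 76) (hf : f < 76) (h : edge e = edge f) : e = f := by
  obtain ⟨a1, a2⟩ := ends_lt e he
  obtain ⟨b1, b2⟩ := ends_lt f hf
  unfold edge at h
  rw [Sym2.eq_iff] at h
  simp only [Fin.ext_iff, Fin.val_ofNat] at h
  rw [Nat.mod_eq_of_lt (by omega), Nat.mod_eq_of_lt (by omega), Nat.mod_eq_of_lt (by omega),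
    Nat.mod_eq_of_lt (by omega)] at h
  rcases h with ⟨h1, h2⟩ | ⟨h1, h2⟩
  · exact ends_uniq e he f hf h1 h2
  · omega

theorem bit_lt {u e : ℕ} (hu : u < 28) (h : (incL.getD u 0).testBit e = true) : e < 76 := by
  by_contra hc
  have h1 : incL.getD u 0 < 2 ^ e :=
    lt_of_lt_of_le (inc_lt u hu) (Nat.pow_le_pow_right (by norm_num) (by omega))
  rw [Nat.testBit_eq_false_of_lt h1] at h
  exact absurd h (by simp)

theorem edge_eq {u w e : ℕ} (hu : u < 28) (hw : w < 28) (hne : u ≠ w)
    (h1 : (incL.getD u 0).testBit e = true) (h2 : (incL.getD w 0).testBit e = true) :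
    edge e = s((⟨w, hw⟩ : Fin 28), ⟨u, hu⟩) := by
  have he := bit_lt hu h1
  obtain ⟨a1, a2⟩ := ends_lt e he
  have e1 := ends_inc e he u hu h1
  have e2 := ends_inc e he w hw h2
  unfold edge
  rw [Sym2.eq_iff]
  simp only [Fin.ext_iff, Fin.val_ofNat]
  rw [Nat.mod_eq_of_lt (by omega), Nat.mod_eq_of_lt (by omega)]
  omega

theorem surv : Surv := by
  classical
  intro S hS
  let T : Finset ℕ := (Finset.range 76).filter (fun e => edge e ∈ S)
  have hT : T.card ≤ 6 := by
    refine le_trans (Finset.card_le_card_of_injOn edge ?_ ?_) hS
    · intro e he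
      exact (Finset.mem_filter.mp he).2
    · intro e he f hf h
      have h1 := Finset.mem_range.mp (Finset.mem_filter.mp (Finset.mem_coe.mp he)).1
      have h2 := Finset.mem_range.mp (Finset.mem_filter.mp (Finset.mem_coe.mp hf)).1
      exact edge_inj h1 h2 h
  obtain ⟨i, hal⟩ := main T (fun i hi => Finset.mem_range.mp (Finset.mem_filter.mp hi).1) hT
  have hv := BT.all_get valid tab tab_valid i
  generalize tab.get i = d at hal hv
  unfold valid at hv
  split at hv
  swap
  · exact absurd hv (by simp)
  rename_i hpop
  have hval := validN_spec hv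
  refine ⟨((Finset.range 28).filter (fun i => d.D.testBit i = true)).attachFin
    (fun m hm => Finset.mem_range.mp (Finset.mem_filter.mp hm).1), ?_, ?_⟩
  · rw [Finset.card_attachFin, ← pop_eq]
    exact Nat.eq_of_beq_eq_true hpop
  · intro v
    have h1 := hval v.1 v.2
    unfold validU at h1
    split at h1
    · rename_i hb
      left
      rw [Finset.mem_attachFin, Finset.mem_filter, Finset.mem_range]
      exact ⟨v.2, hb⟩
    · rename_i hvD
      right
      have key : (∃ e, (mask v.1 d.D 28).testBit e = true ∧ e ∉ T) →
          (∃ u ∈ ((Finset.range 28).filter (fun i => d.D.testBit i = true)).attachFin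
            (fun m hm => Finset.mem_range.mp (Finset.mem_filter.mp hm).1),
            (gr.deleteEdges (↑S : Set (Sym2 (Fin 28)))).Adj u v) := by
        rintro ⟨e, he, heT⟩
        obtain ⟨w, hw, hwD, h2, h3⟩ := mask_spec he
        have hne : v.1 ≠ w := by
          rintro rfl
          rw [hvD] at hwD
          exact absurd hwD (by simp)
        refine ⟨⟨w, hw⟩, ?_, ?_⟩
        · rw [Finset.mem_attachFin, Finset.mem_filter, Finset.mem_range]
          exact ⟨hw, hwD⟩
        · rw [SimpleGraph.deleteEdges_adj]
          refine ⟨⟨?_, ?_⟩, ?_⟩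
          · intro h
            exact hne (congrArg Fin.val h).symm
          · intro h0
            have h4 : (BondG.em (⟨w, hw⟩ : Fin 28) v).testBit e = true := by
              unfold BondG.em BondG.inc
              rw [testBit_land]
              show ((incL.getD w 0).testBit e && (incL.getD v.1 0).testBit e) = true
              rw [h2, h3]
              rfl
            rw [h0, Nat.zero_testBit] at h4
            exact absurd h4 (by simp)
          · intro hmem
            apply heT
            rw [Finset.mem_filter, Finset.mem_range]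
            refine ⟨bit_lt v.2 h2, ?_⟩
            rw [edge_eq v.2 hw hne h2 h3]
            exact Finset.mem_coe.mp hmem
      split at h1
      · rename_i h2
        apply key
        obtain ⟨e, he, hs⟩ := beq_land_nonzero h2
        refine ⟨e, he, fun heT => ?_⟩
        rw [hal.1 e heT] at hs
        exact absurd hs (by simp)
      · apply key
        obtain ⟨q, hq, hqm⟩ := subQ_spec h1
        obtain ⟨e, he, heT⟩ := hal.2 q hq
        exact ⟨e, hqm e he, heT⟩

end Pool.Agent.H25.Bond
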