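import Pool.Agent.H25.Bond.P0
import Pool.Agent.H25.Bond.P1
import Pool.Agent.H25.Bond.P2
import Pool.Agent.H25.Bond.P3
import Pool.Agent.H25.Bond.P4
import Pool.Agent.H25.Bond.P5
import Pool.Agent.H25.Bond.P6
import Pool.Agent.H25.Bond.P7

set_option autoImplicit false
set_option maxRecDepth 100000

namespace Pool.Agent.H25.Bond

/-- the state `s` is one of the certified triples -/
def memH : List (ℕ × ℕ × ℕ) → ℕ → ℕ → ℕ → Bool
  | [], _, _, _ => false
  | h :: t, r, X, F => match Nat.beq h.1 r with
    | true => match Nat.beq h.2.1 X with
      | true => match Nat.beq h.2.2 F with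
        | true => true
        | false => memH t r X F
      | false => memH t r X F
    | false => memH t r X F

theorem memH_mem {H : List (ℕ × ℕ × ℕ)} {r X F : ℕ} (h : memH H r X F = true) :
    (r, X, F) ∈ H := by
  induction H with
  | nil => exact absurd h (by simp [memH])
  | cons a t ih =>
    unfold memH at h
    split at h
    · rename_i h1
      split at h
      · rename_i h2
        split at h
        · rename_i h3
          have e1 := Nat.eq_of_beq_eq_true h1
          have e2 := Nat.eq_of_beq_eq_true h2
          have e3 := Nat.eq_of_beq_eq_true h3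
          have : a = (r, X, F) := by
            rw [← e1, ← e2, ← e3]
          rw [this]
          exact List.mem_cons_self
        · exact List.mem_cons_of_mem _ (ih h)
      · exact List.mem_cons_of_mem _ (ih h)
    · exact List.mem_cons_of_mem _ (ih h)

def gH (H : List (ℕ × ℕ × ℕ)) (r : ℕ) (X F : ℕ) (s : List ℕ) : Option (List ℕ) :=
  match memH H r X F with
  | true => some s
  | false => none

/-- the certified triples: remaining budget, contained edges, avoided edges -/

def H : List (ℕ × ℕ × ℕ) := [(4, 885443715538058477568, 0),
  (4, 627189298506124754944, 295147905179352825856),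
  (4, 590295880727449829376, 332041393326771929088),
  (4, 590295810908461465600, 332041463695516106752),
  (4, 590295810367295586304, 332041464245271920640),
  (4, 590295810358974087168, 332041464253861855232),
  (4, 590295810358705653760, 332041464254130290688),
  (4, 590295810358705651716, 332041464254130292736),
  (3, 590295810358705651745, 332041464254130292740),
  (3, 590295810358705652226, 332041464254130292740),
  (3, 590295810358707749888, 332041464254130292740),
  (3, 590295810358839869448, 332041464254130292740),
  (3, 590295810359779397632, 332041464254130292740),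
  (3, 590295810375885520912, 332041464254130292740),
  (3, 590295812626448384000, 332041464254130292740),
  (3, 590295845680516694016, 332041464254130292740),
  (3, 590313825032093040640, 332041464254130292740),
  (3, 591448872600800854016, 332041464254130292740),
  (3, 737870044423358775296, 332041464254130292740),
  (3, 2951479052893039886336, 332041464254130292740),
  (3, 14757395258967641292800, 332041464254130292740),
  (3, 57258693604794448216064, 332041464254130292740),
  (4, 313594649253062377472, 590295810358705651712),
  (4, 55340232221128654848, 885443715538058477568),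
  (4, 18446814442453729280, 922337203685477580800),
  (4, 18446744623465365504, 922337274054221758464),
  (4, 18446744082299486208, 922337274603977572352),
  (4, 18446744073977987072, 922337274612567506944),
  (4, 18446744073709553664, 922337274612835942400),
  (4, 18446744073709551620, 922337274612835944448),
  (3, 18446744073709551649, 922337274612835944452),
  (3, 18446744073709552130, 922337274612835944452),
  (3, 18446744073711649792, 922337274612835944452),
  (3, 18446744073843769352, 922337274612835944452),
  (3, 18446744074783297536, 922337274612835944452),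
  (3, 18446744090889420816, 922337274612835944452),
  (3, 18446746341452283904, 922337274612835944452),
  (3, 18446779395520593920, 922337274612835944452),
  (3, 18464758747096940544, 922337274612835944452),
  (3, 19599806315804753920, 922337274612835944452),
  (3, 166020978138362675200, 922337274612835944452),
  (3, 2379629986608043786240, 922337274612835944452),
  (3, 14185546192682645192704, 922337274612835944452),
  (3, 56686844538509452115968, 922337274612835944452),
  (4, 9444733106476778782720, 608742554432415203328),
  (4, 576601489791778816, 10053475520171705630720),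
  (4, 141836999983104, 10054051980924009054208),
  (4, 141012366262272, 10054051982023520681984),
  (4, 140746078289920, 10054051982298398588928),
  (4, 140737756790784, 10054051982306988523520),
  (4, 140737488357376, 10054051982307256958976),
  (4, 140737488355332, 10054051982307256961024),
  (3, 140737488355361, 10054051982307256961028),
  (3, 140737488355842, 10054051982307256961028),
  (3, 140737490453504, 10054051982307256961028),
  (3, 140737622573064, 10054051982307256961028),
  (3, 140738562101248, 10054051982307256961028),
  (3, 140754668224528, 10054051982307256961028),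
  (3, 143005231087616, 10054051982307256961028),
  (2, 2427859113082880, 10054051982307256961028),
  (3, 144326294308388864, 10054051982307256961028),
  (3, 2305984296457863168, 10054051982307256961028),
  (3, 73787398507303272448, 10054051982307256961028),
  (3, 5017514528786486394880, 10054051982307256961028),
  (4, 18889465931753458761728, 608742695169903558656),
  (4, 4503874505277440, 19498208626648484413440),
  (4, 281749854617600, 19498213130248111783936),
  (4, 283467841536, 19498213411723088494592),
  (4, 275146342400, 19498213411731678429184),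
  (4, 274877908992, 19498213411731946864640),
  (4, 274877906948, 19498213411731946866688),
  (3, 274877906977, 19498213411731946866692),
  (3, 274877907458, 19498213411731946866692),
  (3, 274880005120, 19498213411731946866692),
  (3, 275012124680, 19498213411731946866692),
  (3, 275951652864, 19498213411731946866692),
  (3, 292057776144, 19498213411731946866692),
  (2, 20134806683648, 19498213411731946866692),
  (3, 35596688949248, 19498213411731946866692),
  (3, 36099440641048576, 19498213411731946866692),
  (3, 9223372861488496640, 19498213411731946866692),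
  (3, 1180591622091800838144, 19498213411731946866692),
  (3, 37815825351379458719744, 19498213411731946866692),
  (4, 25769803776, 608742695444781465600),
  (4, 9663676416, 608742695461961334784),
  (4, 8589967360, 608742695463035076608),
  (4, 8589942784, 608742695463035109376),
  (4, 8589934656, 608742695463035117568),
  (3, 8589934595, 608742695463035117632),
  (3, 8589935136, 608742695463035117632),
  (3, 8592031872, 608742695463035117632),
  (3, 8724168704, 608742695463035117632),
  (3, 8858370304, 608742695463035117632),
  (3, 2276332666880, 608742695463035117632),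
  (3, 35330400976896, 608742695463035117632),
  (3, 144185565409968128, 608742695463035117632),
  (3, 9223372595200524288, 608742695463035117632),
  (3, 73787257778404851712, 608742695463035117632),
  (3, 1180591621825512865792, 608742695463035117632),
  (3, 23611832414356816003072, 608742695463035117632),
  (3, 47223664828705042071552, 608742695463035117632),
  (4, 402653184, 608742695453371400192),
  (4, 268500992, 608742695453505617920),
  (4, 268437504, 608742695453505683456),
  (4, 268435968, 608742695453505685504),
  (4, 268435460, 608742695453505686016),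
  (3, 268435552, 608742695453505686020),
  (3, 270533632, 608742695453505686020),
  (3, 1342181376, 608742695453505686020),
  (3, 17448435712, 608742695453505686020),
  (3, 2268011167744, 608742695453505686020),
  (2, 35322079739904, 608742695453505686020),
  (3, 144185557088468992, 608742695453505686020),
  (3, 9223372586879025152, 608742695453505686020),
  (3, 73787257770083352576, 608742695453505686020),
  (3, 1180591621817191366656, 608742695453505686020),
  (3, 23611832414348494503936, 608742695453505686020),
  (3, 47223664828696720572416, 608742695453505686020),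
  (4, 17179871232, 608742695453639835648),
  (4, 1073743872, 608742695470819704832),
  (4, 10240, 608742695471893446656),
  (4, 2112, 608742695471893454848),
  (3, 2051, 608742695471893454912),
  (3, 2592, 608742695471893454912),
  (3, 2099328, 608742695471893454912),
  (3, 134236160, 608742695471893454912),
  (3, 2267742734336, 608742695471893454912),
  (3, 35321811044352, 608742695471893454912),
  (3, 144185556820035584, 608742695471893454912),
  (3, 9223372586610591744, 608742695471893454912),
  (3, 73787257769814919168, 608742695471893454912),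
  (3, 1180591621816922933248, 608742695471893454912),
  (3, 23611832414348226070528, 608742695471893454912),
  (3, 47223664828696452139008, 608742695471893454912),
  (4, 131076, 608742695453639837696),
  (4, 516, 608742695453639968768),
  (4, 36, 608742695453639969280),
  (4, 20, 608742695453639969312),
  (3, 2098180, 608742695453639969328),
  (3, 201326596, 608742695453639969328),
  (3, 1073745924, 608742695453639969328),
  (3, 2267742732292, 608742695453639969328),
  (2, 35356170780676, 608742695453639969328),
  (3, 144185556820033540, 608742695453639969328),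
  (3, 9223372586610589700, 608742695453639969328),
  (3, 73787257769814917124, 608742695453639969328),
  (3, 1180591621816922931204, 608742695453639969328),
  (3, 23611832414348226068484, 608742695453639969328),
  (3, 47223664828696452136964, 608742695453639969328),
  (4, 33, 608742695453639837700),
  (4, 514, 608742695453639837700),
  (4, 2098176, 608742695453639837700),
  (4, 134217736, 608742695453639837700),
  (4, 1073745920, 608742695453639837700),
  (4, 17179869200, 608742695453639837700),
  (4, 2267742732288, 608742695453639837700),
  (4, 35321811042304, 608742695453639837700),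
  (4, 144185556820033536, 608742695453639837700),
  (4, 9223372586610589696, 608742695453639837700),
  (4, 73787257769814917120, 608742695453639837700),
  (4, 1180591621816922931200, 608742695453639837700),
  (4, 23611832414348226068480, 608742695453639837700),
  (4, 47223664828696452136960, 608742695453639837700)]

theorem base (r : ℕ) (g : ℕ → ℕ → List ℕ → Option (List ℕ)) (hg : Sound tab g r) (X F : ℕ)
    (l : List ℕ) (h : (g X F l).isSome = true) : ∀ T, Inv T X F r → Good tab T := by
  obtain ⟨s', hs'⟩ := Option.isSome_iff_exists.mp h
  exact hg X F l s' hs'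

theorem goL2_sound : Sound tab (goL2 tab) 2 := lift_sound (goN2_sound tab)
theorem goL3_sound : Sound tab (goL3 tab) 3 :=
  up_sound goL2_sound (lift_sound (goN1_sound tab)) (lift_sound (goN0_sound tab)).toS
theorem goL4_sound : Sound tab (goL4 tab) 4 :=
  up_sound goL3_sound goL2_sound (lift_sound (goN1_sound tab)).toS

theorem H_ok : ∀ p ∈ H, ∀ T, Inv T p.2.1 p.2.2 p.1 → Good tab T := by
  unfold H
  intro p hp

  rcases List.mem_cons.1 hp with rfl | hp
  · exact base 4 _ goL4_sound _ _ _ h0
  rcases List.mem_cons.1 hp with rfl | hp
  · exact base 4 _ goL4_sound _ _ _ h1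
  rcases List.mem_cons.1 hp with rfl | hp
  · exact base 4 _ goL4_sound _ _ _ h2
  rcases List.mem_cons.1 hp with rfl | hp
  · exact base 4 _ goL4_sound _ _ _ h3
  rcases List.mem_cons.1 hp with rfl | hp
  · exact base 4 _ goL4_sound _ _ _ h4
  rcases List.mem_cons.1 hp with rfl | hp
  · exact base 4 _ goL4_sound _ _ _ h5
  rcases List.mem_cons.1 hp with rfl | hp
  · exact base 4 _ goL4_sound _ _ _ h6
  rcases List.mem_cons.1 hp with rfl | hp
  · exact base 4 _ goL4_sound _ _ _ h7
  rcases List.mem_cons.1 hp with rfl | hp
  · exact base 3 _ goL3_sound _ _ _ h8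
  rcases List.mem_cons.1 hp with rfl | hp
  · exact base 3 _ goL3_sound _ _ _ h9
  rcases List.mem_cons.1 hp with rfl | hp
  · exact base 3 _ goL3_sound _ _ _ h10
  rcases List.mem_cons.1 hp with rfl | hp
  · exact base 3 _ goL3_sound _ _ _ h11
  rcases List.mem_cons.1 hp with rfl | hp
  · exact base 3 _ goL3_sound _ _ _ h12
  rcases List.mem_cons.1 hp with rfl | hp
  · exact base 3 _ goL3_sound _ _ _ h13
  rcases List.mem_cons.1 hp with rfl | hp
  · exact base 3 _ goL3_sound _ _ _ h14
  rcases List.mem_cons.1 hp with rfl | hp
  · exact base 3 _ goL3_sound _ _ _ h15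
  rcases List.mem_cons.1 hp with rfl | hp
  · exact base 3 _ goL3_sound _ _ _ h16
  rcases List.mem_cons.1 hp with rfl | hp
  · exact base 3 _ goL3_sound _ _ _ h17
  rcases List.mem_cons.1 hp with rfl | hp
  · exact base 3 _ goL3_sound _ _ _ h18
  rcases List.mem_cons.1 hp with rfl | hp
  · exact base 3 _ goL3_sound _ _ _ h19
  rcases List.mem_cons.1 hp with rfl | hp
  · exact base 3 _ goL3_sound _ _ _ h20
  rcases List.mem_cons.1 hp with rfl | hp
  · exact base 3 _ goL3_sound _ _ _ h21
  rcases List.mem_cons.1 hp with rfl | hp
  · exact base 4 _ goL4_sound _ _ _ h22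
  rcases List.mem_cons.1 hp with rfl | hp
  · exact base 4 _ goL4_sound _ _ _ h23
  rcases List.mem_cons.1 hp with rfl | hp
  · exact base 4 _ goL4_sound _ _ _ h24
  rcases List.mem_cons.1 hp with rfl | hp
  · exact base 4 _ goL4_sound _ _ _ h25
  rcases List.mem_cons.1 hp with rfl | hp
  · exact base 4 _ goL4_sound _ _ _ h26
  rcases List.mem_cons.1 hp with rfl | hp
  · exact base 4 _ goL4_sound _ _ _ h27
  rcases List.mem_cons.1 hp with rfl | hp
  · exact base 4 _ goL4_sound _ _ _ h28
  rcases List.mem_cons.1 hp with rfl | hp
  · exact base 4 _ goL4_sound _ _ _ h29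
  rcases List.mem_cons.1 hp with rfl | hp
  · exact base 3 _ goL3_sound _ _ _ h30
  rcases List.mem_cons.1 hp with rfl | hp
  · exact base 3 _ goL3_sound _ _ _ h31
  rcases List.mem_cons.1 hp with rfl | hp
  · exact base 3 _ goL3_sound _ _ _ h32
  rcases List.mem_cons.1 hp with rfl | hp
  · exact base 3 _ goL3_sound _ _ _ h33
  rcases List.mem_cons.1 hp with rfl | hp
  · exact base 3 _ goL3_sound _ _ _ h34
  rcases List.mem_cons.1 hp with rfl | hp
  · exact base 3 _ goL3_sound _ _ _ h35
  rcases List.mem_cons.1 hp with rfl | hp
  · exact base 3 _ goL3_sound _ _ _ h36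
  rcases List.mem_cons.1 hp with rfl | hp
  · exact base 3 _ goL3_sound _ _ _ h37
  rcases List.mem_cons.1 hp with rfl | hp
  · exact base 3 _ goL3_sound _ _ _ h38
  rcases List.mem_cons.1 hp with rfl | hp
  · exact base 3 _ goL3_sound _ _ _ h39
  rcases List.mem_cons.1 hp with rfl | hp
  · exact base 3 _ goL3_sound _ _ _ h40
  rcases List.mem_cons.1 hp with rfl | hp
  · exact base 3 _ goL3_sound _ _ _ h41
  rcases List.mem_cons.1 hp with rfl | hp
  · exact base 3 _ goL3_sound _ _ _ h42
  rcases List.mem_cons.1 hp with rfl | hp
  · exact base 3 _ goL3_sound _ _ _ h43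
  rcases List.mem_cons.1 hp with rfl | hp
  · exact base 4 _ goL4_sound _ _ _ h44
  rcases List.mem_cons.1 hp with rfl | hp
  · exact base 4 _ goL4_sound _ _ _ h45
  rcases List.mem_cons.1 hp with rfl | hp
  · exact base 4 _ goL4_sound _ _ _ h46
  rcases List.mem_cons.1 hp with rfl | hp
  · exact base 4 _ goL4_sound _ _ _ h47
  rcases List.mem_cons.1 hp with rfl | hp
  · exact base 4 _ goL4_sound _ _ _ h48
  rcases List.mem_cons.1 hp with rfl | hp
  · exact base 4 _ goL4_sound _ _ _ h49
  rcases List.mem_cons.1 hp with rfl | hp
  · exact base 4 _ goL4_sound _ _ _ h50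
  rcases List.mem_cons.1 hp with rfl | hp
  · exact base 4 _ goL4_sound _ _ _ h51
  rcases List.mem_cons.1 hp with rfl | hp
  · exact base 3 _ goL3_sound _ _ _ h52
  rcases List.mem_cons.1 hp with rfl | hp
  · exact base 3 _ goL3_sound _ _ _ h53
  rcases List.mem_cons.1 hp with rfl | hp
  · exact base 3 _ goL3_sound _ _ _ h54
  rcases List.mem_cons.1 hp with rfl | hp
  · exact base 3 _ goL3_sound _ _ _ h55
  rcases List.mem_cons.1 hp with rfl | hp
  · exact base 3 _ goL3_sound _ _ _ h56
  rcases List.mem_cons.1 hp with rfl | hp
  · exact base 3 _ goL3_sound _ _ _ h57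
  rcases List.mem_cons.1 hp with rfl | hp
  · exact base 3 _ goL3_sound _ _ _ h58
  rcases List.mem_cons.1 hp with rfl | hp
  · exact base 2 _ goL2_sound _ _ _ h59
  rcases List.mem_cons.1 hp with rfl | hp
  · exact base 3 _ goL3_sound _ _ _ h60
  rcases List.mem_cons.1 hp with rfl | hp
  · exact base 3 _ goL3_sound _ _ _ h61
  rcases List.mem_cons.1 hp with rfl | hp
  · exact base 3 _ goL3_sound _ _ _ h62
  rcases List.mem_cons.1 hp with rfl | hp
  · exact base 3 _ goL3_sound _ _ _ h63
  rcases List.mem_cons.1 hp with rfl | hp
  · exact base 4 _ goL4_sound _ _ _ h64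
  rcases List.mem_cons.1 hp with rfl | hp
  · exact base 4 _ goL4_sound _ _ _ h65
  rcases List.mem_cons.1 hp with rfl | hp
  · exact base 4 _ goL4_sound _ _ _ h66
  rcases List.mem_cons.1 hp with rfl | hp
  · exact base 4 _ goL4_sound _ _ _ h67
  rcases List.mem_cons.1 hp with rfl | hp
  · exact base 4 _ goL4_sound _ _ _ h68
  rcases List.mem_cons.1 hp with rfl | hp
  · exact base 4 _ goL4_sound _ _ _ h69
  rcases List.mem_cons.1 hp with rfl | hp
  · exact base 4 _ goL4_sound _ _ _ h70
  rcases List.mem_cons.1 hp with rfl | hp
  · exact base 3 _ goL3_sound _ _ _ h71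
  rcases List.mem_cons.1 hp with rfl | hp
  · exact base 3 _ goL3_sound _ _ _ h72
  rcases List.mem_cons.1 hp with rfl | hp
  · exact base 3 _ goL3_sound _ _ _ h73
  rcases List.mem_cons.1 hp with rfl | hp
  · exact base 3 _ goL3_sound _ _ _ h74
  rcases List.mem_cons.1 hp with rfl | hp
  · exact base 3 _ goL3_sound _ _ _ h75
  rcases List.mem_cons.1 hp with rfl | hp
  · exact base 3 _ goL3_sound _ _ _ h76
  rcases List.mem_cons.1 hp with rfl | hp
  · exact base 2 _ goL2_sound _ _ _ h77
  rcases List.mem_cons.1 hp with rfl | hp
  · exact base 3 _ goL3_sound _ _ _ h78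
  rcases List.mem_cons.1 hp with rfl | hp
  · exact base 3 _ goL3_sound _ _ _ h79
  rcases List.mem_cons.1 hp with rfl | hp
  · exact base 3 _ goL3_sound _ _ _ h80
  rcases List.mem_cons.1 hp with rfl | hp
  · exact base 3 _ goL3_sound _ _ _ h81
  rcases List.mem_cons.1 hp with rfl | hp
  · exact base 3 _ goL3_sound _ _ _ h82
  rcases List.mem_cons.1 hp with rfl | hp
  · exact base 4 _ goL4_sound _ _ _ h83
  rcases List.mem_cons.1 hp with rfl | hp
  · exact base 4 _ goL4_sound _ _ _ h84
  rcases List.mem_cons.1 hp with rfl | hp
  · exact base 4 _ goL4_sound _ _ _ h85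
  rcases List.mem_cons.1 hp with rfl | hp
  · exact base 4 _ goL4_sound _ _ _ h86
  rcases List.mem_cons.1 hp with rfl | hp
  · exact base 4 _ goL4_sound _ _ _ h87
  rcases List.mem_cons.1 hp with rfl | hp
  · exact base 3 _ goL3_sound _ _ _ h88
  rcases List.mem_cons.1 hp with rfl | hp
  · exact base 3 _ goL3_sound _ _ _ h89
  rcases List.mem_cons.1 hp with rfl | hp
  · exact base 3 _ goL3_sound _ _ _ h90
  rcases List.mem_cons.1 hp with rfl | hp
  · exact base 3 _ goL3_sound _ _ _ h91
  rcases List.mem_cons.1 hp with rfl | hp
  · exact base 3 _ goL3_sound _ _ _ h92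
  rcases List.mem_cons.1 hp with rfl | hp
  · exact base 3 _ goL3_sound _ _ _ h93
  rcases List.mem_cons.1 hp with rfl | hp
  · exact base 3 _ goL3_sound _ _ _ h94
  rcases List.mem_cons.1 hp with rfl | hp
  · exact base 3 _ goL3_sound _ _ _ h95
  rcases List.mem_cons.1 hp with rfl | hp
  · exact base 3 _ goL3_sound _ _ _ h96
  rcases List.mem_cons.1 hp with rfl | hp
  · exact base 3 _ goL3_sound _ _ _ h97
  rcases List.mem_cons.1 hp with rfl | hp
  · exact base 3 _ goL3_sound _ _ _ h98
  rcases List.mem_cons.1 hp with rfl | hp
  · exact base 3 _ goL3_sound _ _ _ h99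
  rcases List.mem_cons.1 hp with rfl | hp
  · exact base 3 _ goL3_sound _ _ _ h100
  rcases List.mem_cons.1 hp with rfl | hp
  · exact base 4 _ goL4_sound _ _ _ h101
  rcases List.mem_cons.1 hp with rfl | hp
  · exact base 4 _ goL4_sound _ _ _ h102
  rcases List.mem_cons.1 hp with rfl | hp
  · exact base 4 _ goL4_sound _ _ _ h103
  rcases List.mem_cons.1 hp with rfl | hp
  · exact base 4 _ goL4_sound _ _ _ h104
  rcases List.mem_cons.1 hp with rfl | hp
  · exact base 4 _ goL4_sound _ _ _ h105
  rcases List.mem_cons.1 hp with rfl | hp
  · exact base 3 _ goL3_sound _ _ _ h106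
  rcases List.mem_cons.1 hp with rfl | hp
  · exact base 3 _ goL3_sound _ _ _ h107
  rcases List.mem_cons.1 hp with rfl | hp
  · exact base 3 _ goL3_sound _ _ _ h108
  rcases List.mem_cons.1 hp with rfl | hp
  · exact base 3 _ goL3_sound _ _ _ h109
  rcases List.mem_cons.1 hp with rfl | hp
  · exact base 3 _ goL3_sound _ _ _ h110
  rcases List.mem_cons.1 hp with rfl | hp
  · exact base 2 _ goL2_sound _ _ _ h111
  rcases List.mem_cons.1 hp with rfl | hp
  · exact base 3 _ goL3_sound _ _ _ h112
  rcases List.mem_cons.1 hp with rfl | hp
  · exact base 3 _ goL3_sound _ _ _ h113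
  rcases List.mem_cons.1 hp with rfl | hp
  · exact base 3 _ goL3_sound _ _ _ h114
  rcases List.mem_cons.1 hp with rfl | hp
  · exact base 3 _ goL3_sound _ _ _ h115
  rcases List.mem_cons.1 hp with rfl | hp
  · exact base 3 _ goL3_sound _ _ _ h116
  rcases List.mem_cons.1 hp with rfl | hp
  · exact base 3 _ goL3_sound _ _ _ h117
  rcases List.mem_cons.1 hp with rfl | hp
  · exact base 4 _ goL4_sound _ _ _ h118
  rcases List.mem_cons.1 hp with rfl | hp
  · exact base 4 _ goL4_sound _ _ _ h119
  rcases List.mem_cons.1 hp with rfl | hp
  · exact base 4 _ goL4_sound _ _ _ h120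
  rcases List.mem_cons.1 hp with rfl | hp
  · exact base 4 _ goL4_sound _ _ _ h121
  rcases List.mem_cons.1 hp with rfl | hp
  · exact base 3 _ goL3_sound _ _ _ h122
  rcases List.mem_cons.1 hp with rfl | hp
  · exact base 3 _ goL3_sound _ _ _ h123
  rcases List.mem_cons.1 hp with rfl | hp
  · exact base 3 _ goL3_sound _ _ _ h124
  rcases List.mem_cons.1 hp with rfl | hp
  · exact base 3 _ goL3_sound _ _ _ h125
  rcases List.mem_cons.1 hp with rfl | hp
  · exact base 3 _ goL3_sound _ _ _ h126
  rcases List.mem_cons.1 hp with rfl | hp
  · exact base 3 _ goL3_sound _ _ _ h127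
  rcases List.mem_cons.1 hp with rfl | hp
  · exact base 3 _ goL3_sound _ _ _ h128
  rcases List.mem_cons.1 hp with rfl | hp
  · exact base 3 _ goL3_sound _ _ _ h129
  rcases List.mem_cons.1 hp with rfl | hp
  · exact base 3 _ goL3_sound _ _ _ h130
  rcases List.mem_cons.1 hp with rfl | hp
  · exact base 3 _ goL3_sound _ _ _ h131
  rcases List.mem_cons.1 hp with rfl | hp
  · exact base 3 _ goL3_sound _ _ _ h132
  rcases List.mem_cons.1 hp with rfl | hp
  · exact base 3 _ goL3_sound _ _ _ h133
  rcases List.mem_cons.1 hp with rfl | hp
  · exact base 4 _ goL4_sound _ _ _ h134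
  rcases List.mem_cons.1 hp with rfl | hp
  · exact base 4 _ goL4_sound _ _ _ h135
  rcases List.mem_cons.1 hp with rfl | hp
  · exact base 4 _ goL4_sound _ _ _ h136
  rcases List.mem_cons.1 hp with rfl | hp
  · exact base 4 _ goL4_sound _ _ _ h137
  rcases List.mem_cons.1 hp with rfl | hp
  · exact base 3 _ goL3_sound _ _ _ h138
  rcases List.mem_cons.1 hp with rfl | hp
  · exact base 3 _ goL3_sound _ _ _ h139
  rcases List.mem_cons.1 hp with rfl | hp
  · exact base 3 _ goL3_sound _ _ _ h140
  rcases List.mem_cons.1 hp with rfl | hp
  · exact base 3 _ goL3_sound _ _ _ h141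
  rcases List.mem_cons.1 hp with rfl | hp
  · exact base 2 _ goL2_sound _ _ _ h142
  rcases List.mem_cons.1 hp with rfl | hp
  · exact base 3 _ goL3_sound _ _ _ h143
  rcases List.mem_cons.1 hp with rfl | hp
  · exact base 3 _ goL3_sound _ _ _ h144
  rcases List.mem_cons.1 hp with rfl | hp
  · exact base 3 _ goL3_sound _ _ _ h145
  rcases List.mem_cons.1 hp with rfl | hp
  · exact base 3 _ goL3_sound _ _ _ h146
  rcases List.mem_cons.1 hp with rfl | hp
  · exact base 3 _ goL3_sound _ _ _ h147
  rcases List.mem_cons.1 hp with rfl | hp
  · exact base 3 _ goL3_sound _ _ _ h148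
  rcases List.mem_cons.1 hp with rfl | hp
  · exact base 4 _ goL4_sound _ _ _ h149
  rcases List.mem_cons.1 hp with rfl | hp
  · exact base 4 _ goL4_sound _ _ _ h150
  rcases List.mem_cons.1 hp with rfl | hp
  · exact base 4 _ goL4_sound _ _ _ h151
  rcases List.mem_cons.1 hp with rfl | hp
  · exact base 4 _ goL4_sound _ _ _ h152
  rcases List.mem_cons.1 hp with rfl | hp
  · exact base 4 _ goL4_sound _ _ _ h153
  rcases List.mem_cons.1 hp with rfl | hp
  · exact base 4 _ goL4_sound _ _ _ h154
  rcases List.mem_cons.1 hp with rfl | hp
  · exact base 4 _ goL4_sound _ _ _ h155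
  rcases List.mem_cons.1 hp with rfl | hp
  · exact base 4 _ goL4_sound _ _ _ h156
  rcases List.mem_cons.1 hp with rfl | hp
  · exact base 4 _ goL4_sound _ _ _ h157
  rcases List.mem_cons.1 hp with rfl | hp
  · exact base 4 _ goL4_sound _ _ _ h158
  rcases List.mem_cons.1 hp with rfl | hp
  · exact base 4 _ goL4_sound _ _ _ h159
  rcases List.mem_cons.1 hp with rfl | hp
  · exact base 4 _ goL4_sound _ _ _ h160
  rcases List.mem_cons.1 hp with rfl | hp
  · exact base 4 _ goL4_sound _ _ _ h161
  rcases List.mem_cons.1 hp with rfl | hp
  · exact base 4 _ goL4_sound _ _ _ h162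
  exact absurd hp List.not_mem_nil

theorem gH_sound (r : ℕ) : Sound tab (gH H r) r := by
  intro X F s s' h T hT
  unfold gH at h
  split at h
  · rename_i hm
    exact H_ok _ (memH_mem hm) T hT
  · exact absurd h (by simp)

def g5 : ℕ → ℕ → List ℕ → Option (List ℕ) := up tab (gH H 4) (gH H 3) (gH H 2)
def g6 : ℕ → ℕ → List ℕ → Option (List ℕ) := up tab g5 (gH H 4) (gH H 3)

def Ltop : List ℕ := [1029, 1250, 1250, 435, 896, 1032, 1033, 1032, 1041]

theorem topchk : (g6 0 0 Ltop).isSome = true := by decide +kernel

theorem g5_sound : Sound tab g5 5 := up_sound (gH_sound 4) (gH_sound 3) (gH_sound 2).toS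

theorem g6_sound : Sound tab g6 6 := up_sound g5_sound (gH_sound 4) (gH_sound 3).toS

/-- Every set of at most six edges leaves a dominating set of the table intact. -/
theorem main (T : Finset ℕ) (hlt : ∀ i ∈ T, i < 76) (hc : T.card ≤ 6) : Good tab T := by
  obtain ⟨s', hs'⟩ := Option.isSome_iff_exists.mp topchk
  refine g6_sound 0 0 Ltop s' hs' T ⟨hlt, ?_, ?_, ?_⟩
  · intro i hi; simp at hi
  · intro i _; simp
  · exact (Finset.card_filter_le _ _).trans hc

end Pool.Agent.H25.Bond
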